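import Pool.Agent.N848.AW.Stm
import Pool.Agent.R426.QK.Asy

/-!
# Project AW: the final asymptotics (port of the last part of `Pool/Agent/R426/QK/Asy.lean`)
-/

set_option autoImplicit false

open scoped Classical
open Finset Filter

namespace Pool.Agent.N568.AW

open Pool.Agent.N848.AW
open Pool.Agent.R426.QK
open Pool.Agent.R426.QK.Asy
open Pool.Agent.Y698 (RR)
open Pool.Agent.Y703.CX (XX eL zz kk ev_eL HH NN HH_pos X_pos zz_pos)

lemma sum_split (z : ℕ) (S : Finset RR) (f : RR → ZMod 2) :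
    ∑ π ∈ sm z S, f π + ∑ π ∈ la z S, f π = ∑ π ∈ S, f π := by
  unfold sm la
  exact sum_filter_add_sum_filter_not _ _ _

lemma nd5_of {z : ℕ} {S : Finset RR} (h : C5 S) (h' : Nd3 (sm z S) (la z S)) :
    Nd5 (sm z S) (la z S) := by
  refine ⟨?_, ?_, h'⟩
  · rw [sum_split]; exact h.1
  · rw [sum_split]; exact h.2

lemma c5_of {z : ℕ} {S : Finset RR} (h : Nd5 (sm z S) (la z S)) : C5 S := by
  have h1 := h.1
  have h2 := h.2.1
  rw [sum_split] at h1 h2
  exact ⟨h1, h2⟩

/-- the sets outside the regular part -/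
theorem out_sub5 (X z H k V : ℕ) :
    S5 X \ ((Rg X z H k V).filter fun S => Nd5 (sm z S) (la z S)) ⊆
      (((((SS X).filter fun S => k < S.card) ∪
      ((SS X).filter fun S => S.card ≤ k ∧
        X < (∏ π ∈ sm z S, nrm π) * ∏ π ∈ la z S, XX H (bl H π))) ∪
      ((SS X).filter fun S => ¬ Set.InjOn (bl H) (la z S : Set RR))) ∪
      ((SS X).filter fun S => S.card ≤ k ∧ (lt3 z S).card < 4 * (sm z S).card + V)) ∪
      ((SS X).filter fun S => S.card ≤ k ∧ ¬ Nd3 (sm z S) (la z S)) := by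
  intro S hS
  rw [Finset.mem_sdiff, Finset.mem_filter] at hS
  obtain ⟨h0, h2⟩ := hS
  unfold S5 at h0
  rw [Finset.mem_filter] at h0
  obtain ⟨h1, h5⟩ := h0
  simp only [mem_union, mem_filter]
  by_contra hc
  push Not at hc
  obtain ⟨⟨⟨⟨c1, c2⟩, c3⟩, c4⟩, c5⟩ := hc
  have d1 : S.card ≤ k := c1 h1
  have d2 := c2 h1 d1
  have d3 := c3 h1
  have d4 := c4 h1 d1
  have d5 := c5 h1 d1
  apply h2
  refine ⟨?_, nd5_of h5 d5⟩
  unfold Rg
  rw [mem_filter]
  exact ⟨h1, d3, d1, d2, d4⟩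

/-- AW-ASY -/
theorem t_ASY5 : S_ASY5 := by
  intro hR h1 h3 h4 h5 hK hC hB hF hLo hc2
  obtain ⟨C, hC1, hkey⟩ := hK hR h1 h3 h5
  obtain ⟨D, hD⟩ := hC
  obtain ⟨c, X₀, hc, hlow⟩ := hLo
  have hD1 := hD.one
  unfold S_DQ5
  rw [Metric.tendsto_nhds]
  intro ε hε
  have hε6 : (0 : ℝ) < c * ε / (6 * D) := by positivity
  obtain ⟨V, hV⟩ := h4 (c * ε / (6 * D)) hε6
  have s1 := sml_many hD
  have s2 := sml_cut hD
  have s3 := sml_coll hD
  have s4 := sml_eps (hF V)
  have s5 := sml_eps hB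
  have s6 := sml_main hC1
  have s := sml_add (sml_add (sml_add (sml_add (sml_add s1 s2) s3) s4) s5) s6
  have hδ : (0 : ℝ) < c * ε / 4 := by positivity
  filter_upwards [s (c * ε / 4) hδ, ev_eL 1, eventually_ge_atTop X₀] with X hX hl hX0
  rw [neg_zero, zero_mul, Real.exp_zero, mul_one] at hX
  have hl0 : 0 < eL X := by linarith
  have hlo := hlow X hX0
  have hXp := X_pos hl0
  have hXp' : (0 : ℝ) < X := by exact_mod_cast hXp
  have hSpos : (0 : ℝ) < ((S5 X).card : ℝ) := by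
    refine lt_of_lt_of_le ?_ hlo
    positivity
  have hN : (HH X : ℝ) * Real.log X < NN X := by
    unfold NN
    push_cast
    exact Nat.lt_floor_add_one _
  have hmain := hkey (c * ε / (6 * D)) V hε6 hV X (zz X) (HH X) (kk X) (NN X) (kap C X) hXp
    (HH_pos hl0) (zz_pos hl) (kap_nonneg hC1 X) (kap_pow hC1 hl) hN
  set T := (Rg X (zz X) (HH X) (kk X) V).filter fun S => Nd5 (sm (zz X) S) (la (zz X) S) with hT
  have hTG : (Rg X (zz X) (HH X) (kk X) V).filter
      (fun S => Nd5 (sm (zz X) S) (la (zz X) S) ∧ G2 S) = T.filter G2 := by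
    rw [hT, filter_filter]
  rw [hTG] at hmain
  have hTS : T ⊆ S5 X := by
    intro S hS
    rw [hT, mem_filter] at hS
    unfold S5
    rw [mem_filter]
    refine ⟨?_, c5_of hS.2⟩
    have h6 := hS.1
    unfold Rg at h6
    exact (mem_filter.1 h6).1
  have hRS : ((Rg X (zz X) (HH X) (kk X) V).card : ℝ) ≤ D * X := by
    refine le_trans ?_ (hD.all X hXp)
    exact_mod_cast card_le_card (filter_subset _ _)
  have hcmp := cmp G2 T (S5 X) hTS (c2 / 2) (by linarith [hc2.2.1]) (by linarith [hc2.2.2.1])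
  have hout : ((S5 X \ T).card : ℝ) ≤
      ((((SS X).filter fun S => kk X < S.card).card : ℝ) +
      (((SS X).filter fun S => S.card ≤ kk X ∧
        X < (∏ π ∈ sm (zz X) S, nrm π) * ∏ π ∈ la (zz X) S, XX (HH X) (bl (HH X) π)).card : ℝ) +
      (((SS X).filter fun S => ¬ Set.InjOn (bl (HH X)) (la (zz X) S : Set RR)).card : ℝ) +
      (((SS X).filter fun S => S.card ≤ kk X ∧
        (lt3 (zz X) S).card < 4 * (sm (zz X) S).card + V).card : ℝ)) +
      (((SS X).filter fun S => S.card ≤ kk X ∧ ¬ Nd3 (sm (zz X) S) (la (zz X) S)).card : ℝ) := by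
    have g := card_le_card (out_sub5 X (zz X) (HH X) (kk X) V)
    rw [← hT] at g
    have g2 := (g.trans (card_union_le _ _)).trans (Nat.add_le_add_right ((card_union_le _ _).trans
      (Nat.add_le_add_right ((card_union_le _ _).trans
      (Nat.add_le_add_right (card_union_le _ _) _)) _)) _)
    exact_mod_cast g2
  have htot : |(((S5 X).filter G2).card : ℝ) - c2 / 2 * ((S5 X).card : ℝ)| ≤
      c * ε / 6 * X + c * ε / 4 * X := by
    have g1 : c * ε / (6 * D) * ((Rg X (zz X) (HH X) (kk X) V).card : ℝ) ≤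
        c * ε / 6 * X := by
      calc c * ε / (6 * D) * ((Rg X (zz X) (HH X) (kk X) V).card : ℝ) ≤
          c * ε / (6 * D) * (D * X) := mul_le_mul_of_nonneg_left hRS hε6.le
        _ = c * ε / 6 * X := by
          have : D ≠ 0 := by linarith
          field_simp
    linarith
  rw [Real.dist_eq]
  have e3 : (((S5 X).filter G2).card : ℝ) / ((S5 X).card : ℝ) - c2 / 2 =
      ((((S5 X).filter G2).card : ℝ) - c2 / 2 * ((S5 X).card : ℝ)) /
        ((S5 X).card : ℝ) := by
    field_simp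
  rw [e3, abs_div, abs_of_pos hSpos, div_lt_iff₀ hSpos]
  refine lt_of_le_of_lt htot ?_
  have g2 : c * ε / 4 * X ≤ ε / 4 * ((S5 X).card : ℝ) := by
    calc c * ε / 4 * X = ε / 4 * (c * X) := by ring
      _ ≤ _ := mul_le_mul_of_nonneg_left hlo (by linarith)
  have g3 : c * ε / 6 * X ≤ ε / 6 * ((S5 X).card : ℝ) := by
    calc c * ε / 6 * X = ε / 6 * (c * X) := by ring
      _ ≤ _ := mul_le_mul_of_nonneg_left hlo (by linarith)
  have g4 : 0 < ε * ((S5 X).card : ℝ) := by positivity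
  linarith

end Pool.Agent.N568.AW
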